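import Pool.Agent.Q300.Prim.Decode
import Pool.Agent.Q300.Prim.Hsc

/-!
# Primitivity of the quasivariety generated by a finite Heyting algebra is decidable

There is a primitive recursive (in particular computable) function which, given the operation
tables of a finite Heyting algebra `A`, decides whether the quasivariety `Q(A)` generated by `A`
is primitive; the same function decides whether the consequence relation `⊢_A` is hereditarily
structurally complete.
-/

set_option autoImplicit false

namespace Pool.Agent.Results.MP_51e3d2_lc.PrimitivityDecidable

open Pool.Agent.H877R3.HSC Pool.Agent.Q300.Prim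

theorem result :
    ∃ f : List ℕ → Bool, Primrec f ∧ Computable f ∧
      ∀ (A : Type) [HeytingAlgebra A] [Finite A] (n : ℕ) (e : A ≃ Fin n),
        (f (tables e) = true ↔ Primitive (genQ (Alg.of A))) ∧
        (f (tables e) = true ↔ (matSystem A).HereditarilyStructurallyComplete) := by
  obtain ⟨f, hf, h⟩ := critPN_primrec
  refine ⟨f, hf, hf.to_comp, fun A _ _ n e => ⟨?_, ?_⟩⟩
  · rw [h, critPN_iff e, ← primitive_iff e]
  · rw [h, critPN_iff e, ← hsc_iff e]

end Pool.Agent.Results.MP_51e3d2_lc.PrimitivityDecidable
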